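import Pool.Agent.Lib.MP_0a3911_co.AS.App

/-!
# MP_0a3911_co: the row group is almost simple if `9 ∤ n`

Let `L` be a van Rees latin square of order `n`, `9 ∤ n`, `n ≠ 1, 3`, and let `G` be its row group
(generated by the permutations of the columns carrying a row to a row).  Then `G` is almost simple:
it has a nonabelian simple normal subgroup with trivial centralizer.  This subgroup is transitive.
-/

set_option autoImplicit false

open Pool.Agent.Lib.MP_0a3911_co Pool.Agent.Lib.MP_0a3911_co.RG in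
theorem Pool.Agent.Results.MP_0a3911_co.AlmostSimpleRowGroup.result (n : ℕ) (hn : 0 < n)
    (L : Fin n → Fin n → Fin n)
    (hrow : ∀ i, Function.Injective (L i))
    (hcol : ∀ j, Function.Injective (fun i => L i j))
    (hcount : 18 * ((Finset.univ : Finset (Finset (Fin n) × Finset (Fin n))).filter
        (fun p => p.1.card = 3 ∧ p.2.card = 3 ∧
          (Finset.image (fun q : Fin n × Fin n => L q.1 q.2) (p.1 ×ˢ p.2)).card = 3)).card
      = n ^ 2 * (n - 1))
    (h9 : ¬ 9 ∣ n) (h1 : n ≠ 1) (h3 : n ≠ 3) :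
    ∃ N : Subgroup (rowGroup L), N.Normal ∧ IsSimpleGroup N ∧
      (¬ ∀ x ∈ N, ∀ y ∈ N, x * y = y * x) ∧ Subgroup.centralizer (N : Set (rowGroup L)) = ⊥ ∧
      ∀ c c' : Fin n, ∃ g ∈ N, (g : Equiv.Perm (Fin n)) c = c' :=
  AS.row_almost_simple hn hrow hcol (pr_of_count L hrow hcol hcount) h9 h1 h3
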