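import Pool.Agent.Lib.MP_0a3911_co.VRMain

/-!
# MP_0a3911_co: orders of symmetric van Rees latin squares

Let `L` be a latin square of order `n > 1` with exactly `n ^ 2 (n - 1) / 18` subsquares of order 3
which becomes symmetric after a permutation `f` of the rows and a permutation `g` of the columns.
Then `n` is congruent to 3, 9, 27 or 57 modulo 72.
-/

set_option autoImplicit false

theorem Pool.Agent.Results.MP_0a3911_co.CommutativeOrders.result (n : ℕ) (hn : 1 < n)
    (L : Fin n → Fin n → Fin n)
    (hrow : ∀ i, Function.Injective (L i))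
    (hcol : ∀ j, Function.Injective (fun i => L i j))
    (f g : Equiv.Perm (Fin n))
    (hsymm : ∀ i j, L (f i) (g j) = L (f j) (g i))
    (hcount : 18 * ((Finset.univ : Finset (Finset (Fin n) × Finset (Fin n))).filter
        (fun p => p.1.card = 3 ∧ p.2.card = 3 ∧
          (Finset.image (fun q : Fin n × Fin n => L q.1 q.2) (p.1 ×ˢ p.2)).card = 3)).card
      = n ^ 2 * (n - 1)) :
    n % 72 = 3 ∨ n % 72 = 9 ∨ n % 72 = 27 ∨ n % 72 = 57 :=
  Pool.Agent.Lib.MP_0a3911_co.order_of_symmetric hn L hrow hcol f g hsymm hcount
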