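import Pool.Agent.Lib.MP_0a3911_co.RG.Rel

/-!
# MP_0a3911_co: partitions of the columns invariant under the row group

Let `L` be a van Rees latin square of order `n > 0`, and let `G` be its row group (generated by the
permutations of the columns carrying a row to a row).

1. If `r₁ ≤ r₂` are equivalence relations on the columns preserved by `G`, then every class of `r₂`
   has `m` times as many elements as every class of `r₁`, where `m = 1` or `m ≡ 3 (mod 6)`.
2. So if `r₀ < r₁ < … < r_k` are preserved by `G` then `3 ^ k` divides `n`.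
3. In particular, if `9 ∤ n`, then `G` is primitive.
-/

set_option autoImplicit false

open Pool.Agent.Lib.MP_0a3911_co Pool.Agent.Lib.MP_0a3911_co.RG in
theorem Pool.Agent.Results.MP_0a3911_co.PrimitiveRowGroup.result (n : ℕ) (hn : 0 < n)
    (L : Fin n → Fin n → Fin n)
    (hrow : ∀ i, Function.Injective (L i))
    (hcol : ∀ j, Function.Injective (fun i => L i j))
    (hcount : 18 * ((Finset.univ : Finset (Finset (Fin n) × Finset (Fin n))).filter
        (fun p => p.1.card = 3 ∧ p.2.card = 3 ∧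
          (Finset.image (fun q : Fin n × Fin n => L q.1 q.2) (p.1 ×ˢ p.2)).card = 3)).card
      = n ^ 2 * (n - 1)) :
    (∀ r₁ r₂ : Setoid (Fin n), r₁ ≤ r₂ →
      (∀ τ ∈ rowGroup L, ∀ x y, r₁ x y → r₁ (τ x) (τ y)) →
      (∀ τ ∈ rowGroup L, ∀ x y, r₂ x y → r₂ (τ x) (τ y)) →
      ∃ m : ℕ, (m = 1 ∨ m % 6 = 3) ∧ ∀ x y : Fin n,
        Nat.card {z : Fin n // r₂ z x} = m * Nat.card {z : Fin n // r₁ z y}) ∧
    (∀ (k : ℕ) (r : ℕ → Setoid (Fin n)), (∀ j < k, r j < r (j + 1)) →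
      (∀ j ≤ k, ∀ τ ∈ rowGroup L, ∀ x y, r j x y → r j (τ x) (τ y)) → 3 ^ k ∣ n) ∧
    (¬ 9 ∣ n → ∀ r : Setoid (Fin n), (∀ τ ∈ rowGroup L, ∀ x y, r x y → r (τ x) (τ y)) →
      r = ⊥ ∨ r = ⊤) := by
  have hP := pr_of_count L hrow hcol hcount
  refine ⟨fun r₁ r₂ h12 h1 h2 => ?_, fun k r hlt hinv => chain hn hrow hcol hP k r hlt hinv,
    fun h9 r hinv => partition_trivial hn hrow hcol hP r hinv h9⟩
  obtain ⟨m, hm, e⟩ := rel_pair hn hrow hcol hP h12 h1 h2
  obtain ⟨b, -, -, hb, -, -⟩ := partition hn hrow hcol hP r₁ h1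
  exact ⟨m, hm, fun x y => by rw [e x, hb x, hb y]⟩
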