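import Pool.Agent.Lib.MP_0a3911_co.RG.Main

/-!
# MP_0a3911_co: latin squares with a solvable row group

Let `L` be a van Rees latin square of order `n > 0` (exactly `n ^ 2 (n - 1) / 18` subsquares of
order 3), or, more generally, a latin square with a row `i₀` such that every permutation `τ` of the
columns that carries row `i₀` to a row of `L` satisfies `τ ^ 3 = 1`.

`rowGroup L` is the group of permutations of the columns generated by all the permutations that
carry a row of `L` to a row of `L`; `Separable3 R` says that `R` has a chain of subgroups, each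
normal in the next one, whose indices are powers of 3 or prime to 3.

Every group `R` of permutations of the columns that is solvable (or 3-separable) and normalised by
the row group has all its orbits of length a power of 3. So if the row group itself is solvable (or
3-separable), then `n` is a power of 3.
-/

set_option autoImplicit false

open Pool.Agent.Lib.MP_0a3911_co Pool.Agent.Lib.MP_0a3911_co.RG in
theorem Pool.Agent.Results.MP_0a3911_co.SolvableRowGroup.result (n : ℕ) (hn : 0 < n)
    (L : Fin n → Fin n → Fin n)
    (hrow : ∀ i, Function.Injective (L i))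
    (hcol : ∀ j, Function.Injective (fun i => L i j))
    (hL : (18 * ((Finset.univ : Finset (Finset (Fin n) × Finset (Fin n))).filter
          (fun p => p.1.card = 3 ∧ p.2.card = 3 ∧
            (Finset.image (fun q : Fin n × Fin n => L q.1 q.2) (p.1 ×ˢ p.2)).card = 3)).card
        = n ^ 2 * (n - 1)) ∨
      ∃ i₀ : Fin n, ∀ (j : Fin n) (τ : Equiv.Perm (Fin n)), (∀ c, L i₀ (τ c) = L j c) →
        τ ^ 3 = 1) :
    (∀ R : Subgroup (Equiv.Perm (Fin n)),
      rowGroup L ≤ Subgroup.normalizer (R : Set (Equiv.Perm (Fin n))) →
      (Group.IsSolvable R ∨ Separable3 R) →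
      ∀ c : Fin n, ∃ e : ℕ, Nat.card (MulAction.orbit R c) = 3 ^ e) ∧
    ((Group.IsSolvable (rowGroup L) ∨ Separable3 (rowGroup L)) → ∃ e : ℕ, n = 3 ^ e) := by
  obtain ⟨i0, hU⟩ : ∃ i0 : Fin n, UF (fam hrow i0) i0 1 := by
    rcases hL with h | ⟨i0, h⟩
    · exact ⟨⟨0, hn⟩, uf_of_pr hrow hcol (pr_of_count L hrow hcol h) _⟩
    · exact ⟨i0, uf_of_cube hrow hcol i0 (fun j => h j _ (fam_spec hrow i0 j))⟩
  exact ⟨fun R hR hS c => orbit_pow hrow hU R hR hS c, fun hS => order_pow hrow hU hS⟩
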